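import Pool.Agent.helper43.DHB.SpecB

set_option autoImplicit false

open Filter Topology MeasureTheory
open scoped commutatorElement

namespace Pool.Agent.helper90.DH

open Pool.Agent.helper64.D2

lemma bCLN_aux (g : ℝ) (hg : 0 ≤ g) (U : Finset ℕ) :
    ∑ w ∈ U, (if g ≤ 16 / 2 ^ w then 16 * 2 ^ w * g else 0) ≤ 512 := by
  rw [← Finset.sum_filter]
  set F := U.filter (fun w : ℕ => g ≤ 16 / 2 ^ w) with hF
  rcases F.eq_empty_or_nonempty with h | h
  · rw [h]; simp
  · set W := F.max' h with hW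
    have hWF : W ∈ F := F.max'_mem h
    have hWg : g ≤ 16 / 2 ^ W := (Finset.mem_filter.mp hWF).2
    have hsub : F ⊆ Finset.range (W + 1) := by
      intro w hw
      have := F.le_max' w hw
      simp only [Finset.mem_range]
      omega
    have h1 : ∑ w ∈ F, 16 * 2 ^ w * g ≤ ∑ w ∈ Finset.range (W + 1), 16 * 2 ^ w * g :=
      Finset.sum_le_sum_of_subset_of_nonneg hsub (fun i _ _ => by positivity)
    have h2 : ∑ w ∈ Finset.range (W + 1), 16 * (2 : ℝ) ^ w * g = 16 * g * ∑ w ∈ Finset.range (W + 1), (2 : ℝ) ^ w := by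
      rw [Finset.mul_sum]
      exact Finset.sum_congr rfl (fun i _ => by ring)
    have h3 : ∑ w ∈ Finset.range (W + 1), (2 : ℝ) ^ w = 2 ^ (W + 1) - 1 := by
      rw [geom_sum_eq (by norm_num)]; norm_num
    rw [h2, h3] at h1
    have h4 : g * 2 ^ W ≤ 16 := by
      rw [le_div_iff₀ (by positivity)] at hWg; exact hWg
    have h5 : 16 * g * ((2 : ℝ) ^ (W + 1) - 1) ≤ 512 := by
      rw [pow_succ]; nlinarith
    linarith

theorem bCLN : bCLN_stmt := by
  classical
  intro k p hp U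
  generalize hB : U.filter (fun w => ¬ Cln k p w) = B
  have h1 : (B.card : ℝ) ≤ ∑ w ∈ B, 16 * 2 ^ w * smg k p w := by
    have : (B.card : ℝ) = ∑ w ∈ B, (1 : ℝ) := by simp
    rw [this]
    apply Finset.sum_le_sum
    intro w hw
    have hw2 : ¬ Cln k p w := by rw [← hB] at hw; exact (Finset.mem_filter.mp hw).2
    unfold Cln at hw2
    push Not at hw2
    rw [div_lt_iff₀ (by positivity)] at hw2
    nlinarith
  have h2 : ∑ w ∈ B, 16 * 2 ^ w * smg k p w =
      ∑ a ∈ Finset.range (k - 1), ∑ w ∈ B, (if p (a + 1) - p a ≤ 16 / 2 ^ w then 16 * 2 ^ w * (p (a + 1) - p a) else 0) := by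
    rw [Finset.sum_comm]
    apply Finset.sum_congr rfl
    intro w _
    unfold smg
    rw [Finset.mul_sum]
    apply Finset.sum_congr rfl
    intro a _
    split_ifs <;> simp
  have h3 : ∑ a ∈ Finset.range (k - 1), ∑ w ∈ B, (if p (a + 1) - p a ≤ 16 / 2 ^ w then 16 * 2 ^ w * (p (a + 1) - p a) else 0) ≤
      ∑ a ∈ Finset.range (k - 1), (512 : ℝ) := by
    apply Finset.sum_le_sum
    intro a _
    exact bCLN_aux _ (sub_nonneg.mpr (hp (Nat.le_succ a))) B
  have h4 : ∑ a ∈ Finset.range (k - 1), (512 : ℝ) = 512 * ((k - 1 : ℕ) : ℝ) := by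
    rw [Finset.sum_const, Finset.card_range]; simp; ring
  have h5 : ((k - 1 : ℕ) : ℝ) ≤ (k : ℝ) := by exact_mod_cast Nat.sub_le k 1
  have h6 : (B.card : ℝ) ≤ 512 * k := by rw [h2] at h1; rw [h4] at h3; linarith
  exact_mod_cast h6

end Pool.Agent.helper90.DH
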